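import Mathlib

/-!
# Stable manifolds of skew products over `z ↦ z ^ d`
-/

set_option autoImplicit false

open Filter Topology Set

namespace Q72.Skew

/-- The skew product `F(z₁, z₂, z₃) = (z₁ ^ d, G_{z₁}(z₂, z₃))`. -/
def skew (d : ℕ) (G : ℂ → ℂ × ℂ → ℂ × ℂ) (z : ℂ × (ℂ × ℂ)) : ℂ × (ℂ × ℂ) := (z.1 ^ d, G z.1 z.2)

/-- The hypotheses of the question on the fibre maps: `(λ, w) ↦ G_λ(w)` is holomorphic on `ℂ³`
and, for every `λ` with `|λ| = 1`, the map `G_λ` is a holomorphic automorphism of `ℂ²` fixing the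
origin, and all eigenvalues of its derivative at the origin have modulus less than `1`. -/
def IsAdmissible (G : ℂ → ℂ × ℂ → ℂ × ℂ) : Prop :=
  Differentiable ℂ (fun z : ℂ × (ℂ × ℂ) => G z.1 z.2) ∧
  ∀ l : ℂ, ‖l‖ = 1 →
    (∃ H : ℂ × ℂ → ℂ × ℂ, Differentiable ℂ H ∧ (∀ w, H (G l w) = w) ∧ ∀ w, G l (H w) = w) ∧
    G l 0 = 0 ∧
    ∀ μ : ℂ, Module.End.HasEigenvalue
      (fderiv ℂ (G l) 0 : (ℂ × ℂ) →ₗ[ℂ] (ℂ × ℂ)) μ → ‖μ‖ < 1

/-- The stable manifold of `p = (p₁, 0, 0)` in the fibre over `p₁`, as a subset of `ℂ²`. -/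
def stable (d : ℕ) (G : ℂ → ℂ × ℂ → ℂ × ℂ) (p₁ : ℂ) : Set (ℂ × ℂ) :=
  {w | Tendsto (fun n : ℕ => ‖(skew d G)^[n] (p₁, w) - (skew d G)^[n] (p₁, 0)‖) atTop (𝓝 0)}

/-- the linear map `1/2 + (17/8) N` with `N² = 0` -/
noncomputable def LA (x y : ℂ) : (ℂ × ℂ) →L[ℂ] (ℂ × ℂ) :=
  (((1 / 2 + 17 / 8 * (x * y)) • ContinuousLinearMap.fst ℂ ℂ ℂ -
      (17 / 8 * x ^ 2) • ContinuousLinearMap.snd ℂ ℂ ℂ).prod
    ((17 / 8 * y ^ 2) • ContinuousLinearMap.fst ℂ ℂ ℂ +
      (1 / 2 - 17 / 8 * (x * y)) • ContinuousLinearMap.snd ℂ ℂ ℂ))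

lemma LA_apply (x y : ℂ) (w : ℂ × ℂ) : LA x y w =
    ((1 / 2 + 17 / 8 * (x * y)) * w.1 - 17 / 8 * x ^ 2 * w.2,
      17 / 8 * y ^ 2 * w.1 + (1 / 2 - 17 / 8 * (x * y)) * w.2) := by
  simp [LA]

/-- the fibre maps -/
noncomputable def GG (p q : ℂ) (l : ℂ) (w : ℂ × ℂ) : ℂ × ℂ :=
  LA ((l - q) / (p - q)) ((l - p) / (q - p)) w

lemma admissible (p q : ℂ) : IsAdmissible (GG p q) := by
  constructor
  · have : (fun z : ℂ × (ℂ × ℂ) => GG p q z.1 z.2) = fun z : ℂ × (ℂ × ℂ) =>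
      ((1 / 2 + 17 / 8 * (((z.1 - q) / (p - q)) * ((z.1 - p) / (q - p)))) * z.2.1 -
        17 / 8 * ((z.1 - q) / (p - q)) ^ 2 * z.2.2,
      17 / 8 * ((z.1 - p) / (q - p)) ^ 2 * z.2.1 +
        (1 / 2 - 17 / 8 * (((z.1 - q) / (p - q)) * ((z.1 - p) / (q - p)))) * z.2.2) := by
      funext z
      rw [GG, LA_apply]
    rw [this]
    simp only [div_eq_mul_inv]
    fun_prop
  · intro l _
    set x := (l - q) / (p - q)
    set y := (l - p) / (q - p)
    have hG : GG p q l = fun w => LA x y w := rfl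
    refine ⟨⟨fun w => (4 : ℂ) • (w - LA x y w), ?_, ?_, ?_⟩, ?_, ?_⟩
    · exact (differentiable_id.sub (LA x y).differentiable).const_smul (4 : ℂ)
    · intro w
      rw [hG]
      simp only [LA_apply]
      ext <;> simp <;> ring
    · intro w
      rw [hG]
      simp only [LA_apply]
      ext <;> simp <;> ring
    · rw [hG]; simp
    · intro μ hμ
      have hf : fderiv ℂ (GG p q l) 0 = LA x y := by
        rw [hG]; exact (LA x y).fderiv
      rw [hf] at hμ
      obtain ⟨v, hv⟩ := hμ.exists_hasEigenvector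
      have h1 : LA x y v = μ • v := hv.apply_eq_smul
      have h2 : (LA x y) (LA x y v) = LA x y v - (1 / 4 : ℂ) • v := by
        simp only [LA_apply]
        ext <;> simp <;> ring
      rw [h1, map_smul, h1] at h2
      have h3 : ((μ - 1 / 2) ^ 2) • v = 0 := by
        have : ((μ - 1 / 2) ^ 2) • v = μ • μ • v - (μ • v - (1 / 4 : ℂ) • v) := by
          module
        rw [this, h2, sub_self]
      have h4 : (μ - 1 / 2) ^ 2 = 0 := (smul_eq_zero.1 h3).resolve_right hv.2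
      have h5 : μ = 1 / 2 := by
        have := pow_eq_zero_iff (two_ne_zero) |>.1 h4
        linear_combination this
      rw [h5]
      norm_num

/-- no injective holomorphic map of `ℂ²` into a complex line -/
lemma no_inj (Φ : ℂ × ℂ → ℂ × ℂ) (h1 : Differentiable ℂ Φ) (h2 : Function.Injective Φ)
    (h3 : ∀ z, (Φ z).1 = 4 * (Φ z).2) : False := by
  set f : ℂ × ℂ → ℂ := fun z => (Φ z).2 with hf
  have hfd : Differentiable ℂ f := h1.snd
  have hfi : Function.Injective f := by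
    intro z w hzw
    apply h2
    have h4 : (Φ z).2 = (Φ w).2 := hzw
    exact Prod.ext (by rw [h3, h3, h4]) h4
  set g : ℂ → ℂ := fun t => f (t, 0) with hg
  have hgd : Differentiable ℂ g :=
    hfd.comp (differentiable_id.prodMk (differentiable_const _))
  have hgi : Function.Injective g := by
    intro s t hst
    have := hfi hst
    exact (Prod.ext_iff.1 this).1
  have hopen : 𝓝 (g 0) ≤ map g (𝓝 0) := by
    rcases (hgd.differentiableOn.analyticAt (s := univ) univ_mem :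
      AnalyticAt ℂ g 0).eventually_constant_or_nhds_le_map_nhds with h | h
    · exfalso
      obtain ⟨t, ht, ht0⟩ := ((h.filter_mono nhdsWithin_le_nhds).and
        (self_mem_nhdsWithin (s := {(0 : ℂ)}ᶜ) (a := (0 : ℂ)))).exists
      exact ht0 (hgi ht)
    · exact h
  have hr : range g ∈ 𝓝 (g 0) := hopen (by rw [mem_map]; simp)
  have hc : Tendsto (fun t : ℂ => f (0, t)) (𝓝[≠] 0) (𝓝 (g 0)) := by
    have : ContinuousAt (fun t : ℂ => f (0, t)) 0 :=
      (hfd.continuous.comp (continuous_const.prodMk continuous_id)).continuousAt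
    exact this.tendsto.mono_left nhdsWithin_le_nhds
  obtain ⟨t, ht, ht0⟩ := ((hc.eventually hr).and
    (self_mem_nhdsWithin (s := {(0 : ℂ)}ᶜ) (a := (0 : ℂ)))).exists
  obtain ⟨s, hs⟩ := ht
  have := hfi hs
  exact ht0 (Prod.ext_iff.1 this).2.symm

/-- the second iterate on the fibre over `p` -/
lemma two_steps {d : ℕ} {p q : ℂ} (hpq : p ≠ q) (h1 : p ^ d = q) (h2 : q ^ d = p) (w : ℂ × ℂ) :
    (skew d (GG p q))^[2] (p, w) =
      (p, ((1 / 4 : ℂ) * (w.1 - 17 / 4 * w.2), (1 / 4 : ℂ) * (17 / 4 * w.1 + (1 - 289 / 16) * w.2))) := by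
  have e1 : (p - q) / (p - q) = 1 := div_self (sub_ne_zero.2 hpq)
  have e2 : (q - p) / (q - p) = 1 := div_self (sub_ne_zero.2 hpq.symm)
  show skew d (GG p q) (skew d (GG p q) (p, w)) = _
  simp only [skew, GG, h1, h2, LA_apply, e1, e2, sub_self, zero_div]
  ext <;> simp <;> ring

lemma iterate_two_mul {d : ℕ} {p q : ℂ} (hpq : p ≠ q) (h1 : p ^ d = q) (h2 : q ^ d = p) (m : ℕ)
    (w : ℂ × ℂ) : ((skew d (GG p q))^[2 * m] (p, w)).1 = p ∧
      ((skew d (GG p q))^[2 * m] (p, w)).2.1 - 4 * ((skew d (GG p q))^[2 * m] (p, w)).2.2 =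
        (-4) ^ m * (w.1 - 4 * w.2) ∧
      4 * ((skew d (GG p q))^[2 * m] (p, w)).2.1 - ((skew d (GG p q))^[2 * m] (p, w)).2.2 =
        (-(1 / 64)) ^ m * (4 * w.1 - w.2) := by
  induction m with
  | zero => simp
  | succ m ih =>
    rw [show 2 * (m + 1) = 2 + 2 * m by ring, Function.iterate_add_apply]
    obtain ⟨i1, i2, i3⟩ := ih
    set u := (skew d (GG p q))^[2 * m] (p, w) with hu
    have : u = (p, u.2) := Prod.ext i1 rfl
    rw [this, two_steps hpq h1 h2]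
    refine ⟨rfl, ?_, ?_⟩
    · show (1 / 4 : ℂ) * (u.2.1 - 17 / 4 * u.2.2) -
        4 * ((1 / 4 : ℂ) * (17 / 4 * u.2.1 + (1 - 289 / 16) * u.2.2)) = _
      rw [pow_succ]
      linear_combination (-4 : ℂ) * i2
    · show 4 * ((1 / 4 : ℂ) * (u.2.1 - 17 / 4 * u.2.2)) -
        ((1 / 4 : ℂ) * (17 / 4 * u.2.1 + (1 - 289 / 16) * u.2.2)) = _
      rw [pow_succ]
      linear_combination (-(1 / 64) : ℂ) * i3

theorem stable_eq {d : ℕ} {p q : ℂ} (hpq : p ≠ q) (h1 : p ^ d = q) (h2 : q ^ d = p) :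
    stable d (GG p q) p = {w : ℂ × ℂ | w.1 = 4 * w.2} := by
  have hz : ∀ n : ℕ, ((skew d (GG p q))^[n] (p, 0)).2 = 0 := by
    intro n
    induction n with
    | zero => rfl
    | succ n ih =>
      rw [Function.iterate_succ_apply']
      show GG p q _ ((skew d (GG p q))^[n] (p, 0)).2 = 0
      rw [ih]
      simp [GG]
  have hfirst : ∀ (n : ℕ) (w : ℂ × ℂ), ((skew d (GG p q))^[n] (p, w)).1 =
      ((skew d (GG p q))^[n] (p, 0)).1 := by
    intro n w
    induction n with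
    | zero => rfl
    | succ n ih =>
      rw [Function.iterate_succ_apply', Function.iterate_succ_apply']
      show ((skew d (GG p q))^[n] (p, w)).1 ^ d = ((skew d (GG p q))^[n] (p, 0)).1 ^ d
      rw [ih]
  have hdiff : ∀ (n : ℕ) (w : ℂ × ℂ), (skew d (GG p q))^[n] (p, w) -
      (skew d (GG p q))^[n] (p, 0) = (0, ((skew d (GG p q))^[n] (p, w)).2) := by
    intro n w
    apply Prod.ext
    · show _ - _ = (0 : ℂ)
      rw [hfirst n w, sub_self]
    · show _ - _ = _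
      rw [hz, sub_zero]
  ext w
  constructor
  · intro hw
    have hw' : Tendsto (fun n : ℕ => ‖(skew d (GG p q))^[n] (p, w) -
      (skew d (GG p q))^[n] (p, 0)‖) atTop (𝓝 0) := hw
    have h3 := hw'.comp (tendsto_id.const_mul_atTop' (show 0 < 2 by norm_num))
    have h4 : Tendsto (fun m : ℕ => ‖(-4 : ℂ) ^ m * (w.1 - 4 * w.2)‖) atTop (𝓝 0) := by
      have h5 : Tendsto (fun m : ℕ => 5 * ‖(skew d (GG p q))^[2 * m] (p, w) -
        (skew d (GG p q))^[2 * m] (p, 0)‖) atTop (𝓝 (5 * 0)) := h3.const_mul 5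
      rw [mul_zero] at h5
      refine squeeze_zero (fun _ => norm_nonneg _) (fun m => ?_) h5
      rw [← (iterate_two_mul hpq h1 h2 m w).2.1, hdiff]
      set u := ((skew d (GG p q))^[2 * m] (p, w)).2
      have e1 : ‖u.1‖ ≤ ‖((0 : ℂ), u)‖ := (norm_fst_le u).trans (norm_snd_le ((0 : ℂ), u))
      have e2 : ‖u.2‖ ≤ ‖((0 : ℂ), u)‖ := (norm_snd_le u).trans (norm_snd_le ((0 : ℂ), u))
      calc ‖u.1 - 4 * u.2‖ ≤ ‖u.1‖ + ‖4 * u.2‖ := norm_sub_le _ _
        _ = ‖u.1‖ + 4 * ‖u.2‖ := by rw [norm_mul]; norm_num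
        _ ≤ 5 * ‖((0 : ℂ), u)‖ := by linarith
    show w.1 = 4 * w.2
    by_contra hne
    have h6 : 0 < ‖w.1 - 4 * w.2‖ := norm_pos_iff.2 (sub_ne_zero.2 hne)
    have h7 := h4.eventually (gt_mem_nhds h6)
    obtain ⟨m, hm⟩ := h7.exists
    rw [norm_mul, norm_pow, norm_neg] at hm
    have h8 : (1 : ℝ) ≤ ‖(4 : ℂ)‖ ^ m := one_le_pow₀ (by norm_num)
    nlinarith
  · intro hw
    have hw' : w.1 = 4 * w.2 := hw
    have hev : ∀ m : ℕ, ((skew d (GG p q))^[2 * m] (p, w)).2 =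
        (4 * ((-(1 / 64)) ^ m * w.2), (-(1 / 64)) ^ m * w.2) := by
      intro m
      obtain ⟨-, i2, i3⟩ := iterate_two_mul hpq h1 h2 m w
      rw [hw', sub_self, mul_zero] at i2
      rw [hw'] at i3
      have e1 : ((skew d (GG p q))^[2 * m] (p, w)).2.2 = (-(1 / 64)) ^ m * w.2 := by
        linear_combination (1 / 15 : ℂ) * i3 - (4 / 15 : ℂ) * i2
      apply Prod.ext
      · show _ = 4 * _
        rw [← e1]
        linear_combination i2
      · exact e1
    show Tendsto (fun n : ℕ => ‖(skew d (GG p q))^[n] (p, w) -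
      (skew d (GG p q))^[n] (p, 0)‖) atTop (𝓝 0)
    simp only [hdiff]
    have hbound : ∀ n : ℕ, ‖((0 : ℂ), ((skew d (GG p q))^[n] (p, w)).2)‖ ≤
        4 * (1 / 8) ^ n * ‖w.2‖ := by
      intro n
      rcases Nat.even_or_odd' n with ⟨m, rfl | rfl⟩
      · rw [hev, Prod.norm_mk, Prod.norm_mk, norm_zero]
        have e1 : ‖(-(1 / 64) : ℂ) ^ m * w.2‖ = (1 / 8) ^ (2 * m) * ‖w.2‖ := by
          rw [norm_mul, norm_pow, norm_neg, pow_mul]
          norm_num
        rw [norm_mul, e1]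
        have e2 : (0 : ℝ) ≤ (1 / 8) ^ (2 * m) * ‖w.2‖ := by positivity
        apply max_le (by linarith)
        apply max_le
        · rw [show ‖(4 : ℂ)‖ = 4 by norm_num]; linarith
        · linarith
      · have e0 : ((skew d (GG p q))^[2 * m + 1] (p, w)).2 =
            (-(1 / 8) * ((-(1 / 64)) ^ m * w.2), 1 / 2 * ((-(1 / 64)) ^ m * w.2)) := by
          rw [Function.iterate_succ_apply']
          show GG p q ((skew d (GG p q))^[2 * m] (p, w)).1 ((skew d (GG p q))^[2 * m] (p, w)).2 = _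
          rw [(iterate_two_mul hpq h1 h2 m w).1, hev, GG, LA_apply, sub_self, zero_div,
            div_self (sub_ne_zero.2 hpq)]
          ext <;> simp <;> ring
        rw [e0, Prod.norm_mk, Prod.norm_mk, norm_zero]
        have e1 : ‖(-(1 / 64) : ℂ) ^ m * w.2‖ = (1 / 8) ^ (2 * m) * ‖w.2‖ := by
          rw [norm_mul, norm_pow, norm_neg, pow_mul]
          norm_num
        rw [norm_mul (-(1 / 8) : ℂ), norm_mul (1 / 2 : ℂ), e1, pow_succ]
        have e2 : (0 : ℝ) ≤ (1 / 8) ^ (2 * m) * ‖w.2‖ := by positivity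
        apply max_le (by nlinarith)
        apply max_le
        · rw [show ‖(-(1 / 8) : ℂ)‖ = 1 / 8 by rw [norm_neg]; norm_num]; nlinarith
        · rw [show ‖(1 / 2 : ℂ)‖ = 1 / 2 by norm_num]; nlinarith
    have hlim : Tendsto (fun n : ℕ => 4 * (1 / 8 : ℝ) ^ n * ‖w.2‖) atTop (𝓝 (4 * 0 * ‖w.2‖)) :=
      ((tendsto_pow_atTop_nhds_zero_of_lt_one (by norm_num) (by norm_num)).const_mul 4).mul_const _
    rw [mul_zero, zero_mul] at hlim
    exact squeeze_zero (fun _ => norm_nonneg _) hbound hlim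

/-- roots of unity of order `d + 1` -/
lemma exists_root (d : ℕ) (hd : 2 ≤ d) : ∃ p q : ℂ, ‖p‖ = 1 ∧ p ≠ q ∧ p ^ d = q ∧ q ^ d = p := by
  have hd1 : d + 1 ≠ 0 := by omega
  have hprim := Complex.isPrimitiveRoot_exp (d + 1) hd1
  set p := Complex.exp (2 * Real.pi * Complex.I / ((d + 1 : ℕ) : ℂ)) with hp
  have h1 : p ^ (d + 1) = 1 := hprim.pow_eq_one
  have hp0 : p ≠ 0 := by
    intro h
    rw [h, zero_pow hd1] at h1
    exact zero_ne_one h1
  refine ⟨p, p ^ d, ?_, ?_, rfl, ?_⟩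
  · exact Complex.norm_eq_one_of_pow_eq_one h1 hd1
  · intro h
    have h2 : p ^ (d - 1) = 1 := by
      have h3 : p ^ d = p ^ (d - 1) * p := by
        rw [← pow_succ, Nat.sub_add_cancel (by omega)]
      rw [h3] at h
      have h4 : (p ^ (d - 1) - 1) * p = 0 := by rw [sub_mul, one_mul, ← h, sub_self]
      exact sub_eq_zero.1 ((mul_eq_zero.1 h4).resolve_right hp0)
    have h3 := hprim.dvd_of_pow_eq_one _ h2
    have h4 := Nat.le_of_dvd (by omega) h3
    omega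
  · rw [← pow_mul]
    have h2 : d * d = (d + 1) * (d - 1) + 1 := by
      obtain ⟨e, rfl⟩ : ∃ e, d = e + 1 := ⟨d - 1, by omega⟩
      simp only [Nat.add_sub_cancel]
      ring
    rw [h2, pow_add, pow_mul, h1, one_pow, one_mul, pow_one]

end Q72.Skew
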